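import Pool.Agent.Run7.h547.KM.Iface

/-! Piece REC of project KM (helper547), MP_dbd475_al: the recursion. -/

set_option autoImplicit false

namespace Pool.Agent.Run7.h532.KM

open Pool.Agent.Run7.h547.KM Finset

section gen

variable {R : Type*} [CommRing R]

/-- `X d/dX` -/
noncomputable def DD (f : PowerSeries R) : PowerSeries R :=
  PowerSeries.X * PowerSeries.derivative R f

lemma coeff_DD (f : PowerSeries R) (n : ℕ) :
    PowerSeries.coeff n (DD f) = n • PowerSeries.coeff n f := by
  cases n with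
  | zero => simp [DD]
  | succ n =>
    rw [DD, PowerSeries.coeff_succ_X_mul, PowerSeries.coeff_derivative, nsmul_eq_mul]
    push_cast
    ring

lemma DD_mul (f g : PowerSeries R) : DD (f * g) = DD f * g + f * DD g := by
  simp only [DD, Derivation.leibniz, smul_eq_mul]
  ring

/-- `h` is the logarithmic derivative of `f` -/
def LD (f h : PowerSeries R) : Prop := DD f = h * f

lemma LD.mul {f f' h h' : PowerSeries R} (H : LD f h) (H' : LD f' h') :
    LD (f * f') (h + h') := by
  unfold LD at *
  rw [DD_mul, H, H']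
  ring

lemma LD.one : LD (1 : PowerSeries R) 0 := by
  unfold LD DD
  simp

lemma LD.pow {f h : PowerSeries R} (H : LD f h) (e : ℕ) : LD (f ^ e) (e • h) := by
  induction e with
  | zero => simpa using LD.one
  | succ e ih => rw [pow_succ, succ_nsmul]; exact ih.mul H

lemma LD.prod {ι : Type*} (s : Finset ι) (f h : ι → PowerSeries R)
    (H : ∀ i ∈ s, LD (f i) (h i)) : LD (∏ i ∈ s, f i) (∑ i ∈ s, h i) := by
  classical
  induction s using Finset.induction_on with
  | empty => simpa using LD.one
  | insert a s ha ih =>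
    rw [prod_insert ha, sum_insert ha]
    exact (H a (mem_insert_self _ _)).mul (ih fun i hi => H i (mem_insert_of_mem hi))

/-- the geometric series without its constant term -/
noncomputable def gg (n : ℕ) (c : R) : PowerSeries R :=
  PowerSeries.mk fun i => if i ≠ 0 ∧ n ∣ i then c ^ (i / n) else 0

lemma coeff_monomial_mul (n : ℕ) (c : R) (f : PowerSeries R) (i : ℕ) :
    PowerSeries.coeff i (PowerSeries.monomial n c * f) =
      if n ≤ i then c * PowerSeries.coeff (i - n) f else 0 := by
  have h : PowerSeries.monomial n c = PowerSeries.C c * PowerSeries.X ^ n := by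
    ext j
    rw [PowerSeries.coeff_C_mul, PowerSeries.coeff_X_pow, PowerSeries.coeff_monomial]
    split_ifs <;> simp
  rw [h, mul_assoc, PowerSeries.coeff_C_mul, PowerSeries.coeff_X_pow_mul']
  split_ifs <;> simp

lemma mul_gg (n : ℕ) (hn : 1 ≤ n) (c : R) :
    (1 - PowerSeries.monomial n c) * gg n c = PowerSeries.monomial n c := by
  ext i
  rw [sub_mul, one_mul, map_sub, coeff_monomial_mul, PowerSeries.coeff_monomial]
  unfold gg
  rw [PowerSeries.coeff_mk, PowerSeries.coeff_mk]
  rcases lt_trichotomy i n with h | h | h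
  · rw [if_neg (not_le.mpr h), if_neg h.ne]
    have : ¬ (i ≠ 0 ∧ n ∣ i) := by
      rintro ⟨h0, h1⟩
      exact absurd (Nat.le_of_dvd (Nat.pos_of_ne_zero h0) h1) (not_le.mpr h)
    rw [if_neg this, sub_zero]
  · subst h
    rw [if_pos ⟨by omega, dvd_refl _⟩, if_pos le_rfl, if_pos rfl, Nat.div_self (by omega)]
    simp
  · rw [if_pos h.le, if_neg h.ne']
    by_cases hd : n ∣ i
    · obtain ⟨q, rfl⟩ := hd
      have hq : 2 ≤ q := by
        by_contra hq
        have : q ≤ 1 := by omega
        have h2 : n * q ≤ n * 1 := Nat.mul_le_mul_left n this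
        omega
      have e1 : n * q - n = n * (q - 1) := by
        rw [Nat.mul_sub, Nat.mul_one]
      have z1 : n * q ≠ 0 := Nat.mul_ne_zero (by omega) (by omega)
      have z2 : n * (q - 1) ≠ 0 := Nat.mul_ne_zero (by omega) (by omega)
      rw [e1, if_pos ⟨z1, dvd_mul_right _ _⟩, if_pos ⟨z2, dvd_mul_right _ _⟩,
        Nat.mul_div_cancel_left _ (by omega), Nat.mul_div_cancel_left _ (by omega)]
      obtain ⟨r, rfl⟩ : ∃ r, q = r + 1 := ⟨q - 1, by omega⟩
      rw [Nat.add_sub_cancel, pow_succ]
      ring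
    · have h2 : ¬ n ∣ (i - n) := by
        intro h3
        exact hd ((Nat.dvd_sub_iff_left h.le (dvd_refl n)).mp h3)
      rw [if_neg (fun h => hd h.2), if_neg (fun h => h2 h.2)]
      simp

lemma LD_bin (n : ℕ) (hn : 1 ≤ n) (c : R) :
    LD (1 - PowerSeries.monomial n c) (-(n • gg n c)) := by
  unfold LD
  have h : -(n • gg n c) * (1 - PowerSeries.monomial n c)
      = -(n • ((1 - PowerSeries.monomial n c) * gg n c)) := by
    simp only [nsmul_eq_mul]
    ring
  rw [h, mul_gg n hn]
  ext i
  rw [coeff_DD, map_sub, map_neg, map_nsmul, PowerSeries.coeff_monomial, PowerSeries.coeff_one]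
  rcases eq_or_ne i n with h | h
  · subst h
    rw [if_pos rfl, if_neg (by omega)]
    simp
  · rw [if_neg h]
    rcases eq_or_ne i 0 with h0 | h0
    · subst h0
      simp
    · rw [if_neg h0]
      simp

lemma coeff_gg_mul (n : ℕ) (hn : 1 ≤ n) (c : R) (P : PowerSeries R) (m : ℕ) :
    PowerSeries.coeff m (gg n c * P) =
      ∑ d ∈ Icc 1 (m / n), c ^ d * PowerSeries.coeff (m - n * d) P := by
  rw [PowerSeries.coeff_mul, Finset.Nat.sum_antidiagonal_eq_sum_range_succ
    (fun i j => PowerSeries.coeff i (gg n c) * PowerSeries.coeff j P) m]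
  have h1 : ∀ i ∈ range (m + 1), PowerSeries.coeff i (gg n c) * PowerSeries.coeff (m - i) P =
      if i ≠ 0 ∧ n ∣ i then c ^ (i / n) * PowerSeries.coeff (m - i) P else 0 := by
    intro i _
    unfold gg
    rw [PowerSeries.coeff_mk]
    split_ifs <;> simp
  rw [Finset.sum_congr rfl h1, ← Finset.sum_filter]
  refine Finset.sum_nbij' (fun i => i / n) (fun d => n * d) ?_ ?_ ?_ ?_ ?_
  · intro i hi
    rw [mem_filter, mem_range] at hi
    obtain ⟨hi, h0, q, rfl⟩ := hi
    rw [Nat.mul_div_cancel_left _ (by omega), mem_Icc]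
    refine ⟨?_, ?_⟩
    · rcases Nat.eq_zero_or_pos q with h | h
      · subst h; simp at h0
      · exact h
    · rw [Nat.le_div_iff_mul_le (by omega)]
      rw [Nat.mul_comm]
      omega
  · intro d hd
    rw [mem_Icc] at hd
    rw [mem_filter, mem_range]
    have h2 : d * n ≤ m := (Nat.le_div_iff_mul_le (by omega)).mp hd.2
    refine ⟨by rw [Nat.mul_comm]; omega, ?_, dvd_mul_right _ _⟩
    have : 0 < n * d := Nat.mul_pos (by omega) (by omega)
    omega
  · intro i hi
    rw [mem_filter] at hi
    exact Nat.mul_div_cancel' hi.2.2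
  · intro d _
    exact Nat.mul_div_cancel_left _ (by omega)
  · intro i hi
    rw [mem_filter] at hi
    show c ^ (i / n) * PowerSeries.coeff (m - i) P =
      c ^ (i / n) * PowerSeries.coeff (m - n * (i / n)) P
    rw [Nat.mul_div_cancel' hi.2.2]

/-- `f = 1 + O(X ^ n)` -/
def Unip (n : ℕ) (f : PowerSeries R) : Prop := ∃ q, f = 1 + PowerSeries.X ^ n * q

lemma Unip.mul {n : ℕ} {f g : PowerSeries R} (hf : Unip n f) (hg : Unip n g) :
    Unip n (f * g) := by
  obtain ⟨q, rfl⟩ := hf
  obtain ⟨r, rfl⟩ := hg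
  exact ⟨q + r + PowerSeries.X ^ n * q * r, by ring⟩

lemma Unip.pow {n : ℕ} {f : PowerSeries R} (hf : Unip n f) (e : ℕ) : Unip n (f ^ e) := by
  induction e with
  | zero => exact ⟨0, by simp⟩
  | succ e ih => rw [pow_succ]; exact ih.mul hf

lemma Unip.coeff {n : ℕ} {f : PowerSeries R} (hf : Unip n f) (P : PowerSeries R) (j : ℕ)
    (hj : j < n) : PowerSeries.coeff j (P * f) = PowerSeries.coeff j P := by
  obtain ⟨q, rfl⟩ := hf
  have h : P * (1 + PowerSeries.X ^ n * q) = P + PowerSeries.X ^ n * (P * q) := by ring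
  rw [h, map_add, PowerSeries.coeff_X_pow_mul', if_neg (not_le.mpr hj), add_zero]

lemma unip_bin (n : ℕ) (c : R) : Unip n (1 - PowerSeries.monomial n c) := by
  refine ⟨-PowerSeries.C c, ?_⟩
  ext j
  rw [map_sub, map_add, mul_neg, map_neg, mul_comm, PowerSeries.coeff_C_mul,
    PowerSeries.coeff_X_pow, PowerSeries.coeff_monomial]
  split_ifs <;> simp [sub_eq_add_neg]

end gen

lemma unip_factor (n a b : ℕ) : Unip n (factor n a b) := by
  unfold factor bin
  exact (((unip_bin n _).pow _).mul ((unip_bin n _).pow _)).mul ((unip_bin n _).pow _)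

lemma coeff_prod (a b : ℕ → ℕ) (j : ℕ) : ∀ m, j ≤ m →
    PowerSeries.coeff j (∏ n ∈ Icc 1 m, factor n (a n) (b n)) = lamCoeff a b j := by
  intro m hm
  induction m, hm using Nat.le_induction with
  | base => rfl
  | succ m hm ih =>
    rw [Finset.prod_Icc_succ_top (by omega), (unip_factor _ _ _).coeff _ _ (by omega), ih]

/-- the coefficient of `z ^ w` as a homomorphism -/
noncomputable def ev (w : ℤ) : Lam →+ ℤ where
  toFun x := x.coeff w
  map_zero' := rfl
  map_add' _ _ := rfl

lemma ev_zz_mul (v w : ℤ) (x : Lam) : ev w (zz v * x) = ev (w - v) x := by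
  show (zz v * x).coeff w = x.coeff (w - v)
  unfold zz
  rw [AddMonoidAlgebra.coeff_single_mul_eq_mul_coeff (w - v) (by intro m _; constructor <;> intro h <;> omega),
    one_mul]

lemma zz_pow (v : ℤ) (d : ℕ) : zz v ^ d = zz (d * v) := by
  unfold zz
  rw [AddMonoidAlgebra.single_pow]
  simp

theorem t_REC : S_REC := by
  intro a b
  refine ⟨?_, ?_⟩
  · intro w
    unfold cf lamCoeff
    simp only [Finset.Icc_eq_empty_of_lt (show (0:ℕ) < 1 by norm_num), Finset.prod_empty]
    rw [PowerSeries.coeff_one, if_pos rfl, AddMonoidAlgebra.one_def,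
      AddMonoidAlgebra.coeff_single, Finsupp.single_apply]
    simp only [eq_comm]
  · intro m hm w
    set P : PowerSeries Lam := ∏ n ∈ Icc 1 m, factor n (a n) (b n) with hP
    have hLD : LD P (∑ n ∈ Icc 1 m, (a n • -(n • gg n (zz 1)) + a n • -(n • gg n (zz (-1)))
        + (a n + b n) • -(n • gg n (zz 0)))) := by
      refine LD.prod _ _ _ ?_
      intro n hn
      rw [mem_Icc] at hn
      unfold factor bin
      exact (((LD_bin n hn.1 _).pow _).mul ((LD_bin n hn.1 _).pow _)).mul ((LD_bin n hn.1 _).pow _)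
    have h1 := congrArg (PowerSeries.coeff m) hLD
    rw [coeff_DD, Finset.sum_mul, map_sum] at h1
    have h2 := congrArg (ev w) h1
    rw [map_nsmul, map_sum] at h2
    have e0 : ev w (PowerSeries.coeff m P) = cf a b m w := by
      rw [hP, coeff_prod a b m m le_rfl]; rfl
    rw [e0, nsmul_eq_mul] at h2
    rw [h2, ← Finset.sum_neg_distrib]
    refine Finset.sum_congr rfl ?_
    intro n hn
    rw [mem_Icc] at hn
    have key : ∀ v : ℤ, ev w (PowerSeries.coeff m (gg n (zz v) * P)) =
        ∑ d ∈ Icc 1 (m / n), cf a b (m - n * d) (w - d * v) := by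
      intro v
      rw [coeff_gg_mul n hn.1, map_sum]
      refine Finset.sum_congr rfl ?_
      intro d hd
      rw [zz_pow, ev_zz_mul, hP, coeff_prod a b _ m (Nat.sub_le _ _)]
      rfl
    have e1 : (a n • -(n • gg n (zz 1)) + a n • -(n • gg n (zz (-1)))
        + (a n + b n) • -(n • gg n (zz 0))) * P =
        -((n * a n) • (gg n (zz 1) * P) + (n * a n) • (gg n (zz (-1)) * P)
          + (n * (a n + b n)) • (gg n (zz 0) * P)) := by
      simp only [nsmul_eq_mul]
      push_cast
      ring
    rw [e1, map_neg, map_neg, map_add, map_add, map_add, map_add, map_nsmul, map_nsmul, map_nsmul,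
      map_nsmul, map_nsmul, map_nsmul, key, key, key]
    simp only [nsmul_eq_mul]
    push_cast
    rw [Finset.mul_sum, Finset.mul_sum, Finset.mul_sum, ← Finset.sum_add_distrib,
      ← Finset.sum_add_distrib]
    congr 1
    refine Finset.sum_congr rfl ?_
    intro d _
    have a1 : w - (d : ℤ) * 1 = w - d := by ring
    have a2 : w - (d : ℤ) * (-1) = w + d := by ring
    have a3 : w - (d : ℤ) * 0 = w := by ring
    rw [a1, a2, a3]
    ring

end Pool.Agent.Run7.h532.KM
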